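import Pool.Agent.Lib.MP_226de1_co.K.Basic

/-! The two families of lines of a planar body with two `k`-equipower points, as a recursion for the
cotangents.  `s : Bool` names the centre, `dn s q` (resp. `dp s q`) is the difference of the cotangents
of the line and of the next (resp. previous) line; `(μ-1) sqrt(1+q²)/dp` and `/dn` are the two parts of
the chord. -/

set_option autoImplicit false

namespace EQK1

open Set Filter Topology
open EQK (TT lam RR Dm cc)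

structure LineSys (k μ : ℝ) (dn dp : Bool → ℝ → ℝ) : Prop where
  hk : 1 ≤ k
  hμ : 1 < μ
  δpos : ∃ δ : ℝ, 0 < δ ∧ ∀ s q, δ ≤ dn s q ∧ δ ≤ dp s q
  rel : ∀ s q, ((μ - 1) * Real.sqrt (1 + q ^ 2) / dn s q) ^ k +
    ((μ - 1) * Real.sqrt (1 + q ^ 2) / dp s q) ^ k = 1 + μ ^ k
  nxt : ∀ s q, dp (!s) (q - dn s q) = dn s q
  prv : ∀ s q, dn (!s) (q + dp s q) = dp s q
  lim_top : ∀ s, Tendsto (fun q : ℝ => (μ - 1) * Real.sqrt (1 + q ^ 2) / dp s q) atTop (𝓝 1)
  lim_bot : ∀ s, Tendsto (fun q : ℝ => (μ - 1) * Real.sqrt (1 + q ^ 2) / dn s q) atBot (𝓝 1)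

variable {k μ : ℝ} {dn dp : Bool → ℝ → ℝ}

theorem LineSys.mirror (hL : LineSys k μ dn dp) :
    LineSys k μ (fun s q => dp s (-q)) (fun s q => dn s (-q)) := by
  refine ⟨hL.hk, hL.hμ, ?_, ?_, ?_, ?_, ?_, ?_⟩
  · obtain ⟨δ, hδ, h⟩ := hL.δpos
    exact ⟨δ, hδ, fun s q => ⟨(h s (-q)).2, (h s (-q)).1⟩⟩
  · intro s q
    have h := hL.rel s (-q)
    rw [neg_sq] at h
    rw [← h, add_comm]
  · intro s q
    have h := hL.prv s (-q)
    show dn (!s) (-(q - dp s (-q))) = dp s (-q)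
    rw [← h]
    congr 1
    rw [h]
    ring
  · intro s q
    have h := hL.nxt s (-q)
    show dp (!s) (-(q + dn s (-q))) = dn s (-q)
    rw [← h]
    congr 1
    rw [h]
    ring
  · intro s
    have h := (hL.lim_bot s).comp tendsto_neg_atTop_atBot
    refine h.congr (fun q => ?_)
    simp [Function.comp]
  · intro s
    have h := (hL.lim_top s).comp tendsto_neg_atBot_atTop
    refine h.congr (fun q => ?_)
    simp [Function.comp]

theorem LineSys.dn_pos (hL : LineSys k μ dn dp) (s : Bool) (q : ℝ) : 0 < dn s q := by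
  obtain ⟨δ, hδ, h⟩ := hL.δpos
  exact lt_of_lt_of_le hδ (h s q).1

theorem LineSys.dp_pos (hL : LineSys k μ dn dp) (s : Bool) (q : ℝ) : 0 < dp s q := by
  obtain ⟨δ, hδ, h⟩ := hL.δpos
  exact lt_of_lt_of_le hδ (h s q).2

/-- the previous vertex of the line `(s, q)` -/
noncomputable def Vx (μ : ℝ) (dp : Bool → ℝ → ℝ) (s : Bool) (q : ℝ) : ℝ × ℝ :=
  (q * (μ - 1) / dp s q, (μ - 1) / dp s q)

private theorem ls_w (hL : LineSys k μ dn dp) : 0 < μ - 1 := sub_pos.2 hL.hμ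

private theorem ls_S (q : ℝ) : 0 < Real.sqrt (1 + q ^ 2) := Real.sqrt_pos.2 (by positivity)

private theorem ls_r (hL : LineSys k μ dn dp) (s : Bool) (q : ℝ) :
    0 < (μ - 1) * Real.sqrt (1 + q ^ 2) / dp s q :=
  div_pos (mul_pos (ls_w hL) (ls_S q)) (hL.dp_pos s q)

private theorem ls_t (hL : LineSys k μ dn dp) (s : Bool) (q : ℝ) :
    0 < (μ - 1) * Real.sqrt (1 + q ^ 2) / dn s q :=
  div_pos (mul_pos (ls_w hL) (ls_S q)) (hL.dn_pos s q)

private theorem ls_sq {r : ℝ} (hr : 0 < r) (a : ℝ) : (r ^ 2) ^ (a / 2) = r ^ a := by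
  rw [← Real.rpow_natCast, ← Real.rpow_mul hr.le]
  congr 1
  push_cast
  ring

/-- `RR (Vx) = ((μ-1) sqrt(1+q²)/dp)²` -/
theorem LineSys.RR_Vx (hL : LineSys k μ dn dp) (s : Bool) (q : ℝ) :
    RR (Vx μ dp s q) = ((μ - 1) * Real.sqrt (1 + q ^ 2) / dp s q) ^ 2 := by
  have h1 : Real.sqrt (1 + q ^ 2) ^ 2 = 1 + q ^ 2 := Real.sq_sqrt (by positivity)
  have h2 := (hL.dp_pos s q).ne'
  unfold RR Vx
  simp only [div_pow, mul_pow, h1]
  field_simp
  ring

theorem LineSys.Dm_Vx (hL : LineSys k μ dn dp) (s : Bool) (q : ℝ) :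
    Dm k μ (RR (Vx μ dp s q)) := by
  have hr := ls_r hL s q
  rw [hL.RR_Vx]
  refine ⟨by positivity, ?_⟩
  rw [ls_sq hr]
  unfold cc
  rw [← hL.rel s q]
  have := Real.rpow_pos_of_pos (ls_t hL s q) k
  linarith

/-- `lam (RR Vx) = dp / dn`: both sides positive with the same `k`-th power (`rel`) -/
theorem LineSys.lam_Vx (hL : LineSys k μ dn dp) (s : Bool) (q : ℝ) :
    lam k μ (RR (Vx μ dp s q)) = dp s q / dn s q := by
  have hr := ls_r hL s q
  have ht := ls_t hL s q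
  have hk0 : k ≠ 0 := by
    have := hL.hk
    positivity
  have hp := hL.dp_pos s q
  have hn := hL.dn_pos s q
  have hw := ls_w hL
  have hS := ls_S q
  rw [hL.RR_Vx]
  unfold lam
  have e1 : -(k / 2) = -k / 2 := by ring
  rw [e1, ls_sq hr]
  unfold cc
  rw [← hL.rel s q]
  set r := (μ - 1) * Real.sqrt (1 + q ^ 2) / dp s q with hr'
  set t := (μ - 1) * Real.sqrt (1 + q ^ 2) / dn s q with ht'
  have e2 : (t ^ k + r ^ k) * r ^ (-k) - 1 = (t / r) ^ k := by
    rw [Real.div_rpow ht.le hr.le, Real.rpow_neg hr.le]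
    have : r ^ k ≠ 0 := (Real.rpow_pos_of_pos hr k).ne'
    field_simp
    ring
  rw [e2, ← Real.rpow_mul (by positivity), mul_one_div_cancel hk0, Real.rpow_one, hr', ht']
  field_simp

/-- the step maps the previous vertex to the next one (seen from the other centre) -/
theorem LineSys.TT_Vx (hL : LineSys k μ dn dp) (s : Bool) (q : ℝ) :
    TT k μ (Vx μ dp s q) = Vx μ dp (!s) (q - dn s q) := by
  have hp := (hL.dp_pos s q).ne'
  have hn := (hL.dn_pos s q).ne'
  unfold TT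
  rw [hL.lam_Vx]
  unfold Vx
  rw [hL.nxt]
  simp only
  ext
  · simp only
    field_simp
  · simp only
    field_simp

/-- backwards: `TT (Vx (!s) (q + dp s q)) = Vx s q` (`TT_Vx`, `prv`) -/
theorem LineSys.TT_Vx' (hL : LineSys k μ dn dp) (s : Bool) (q : ℝ) :
    TT k μ (Vx μ dp (!s) (q + dp s q)) = Vx μ dp s q := by
  rw [hL.TT_Vx, hL.prv, Bool.not_not]
  congr 1
  ring

/-- `Vx s q → (1, 0)` as `q → ∞`: `X = r q / sqrt(1+q²)`, `Y = r / sqrt(1+q²)` -/
theorem LineSys.Vx_tendsto (hL : LineSys k μ dn dp) (s : Bool) :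
    Tendsto (Vx μ dp s) atTop (𝓝 (1, 0)) := by
  have h0 : Tendsto (fun q : ℝ => Real.sqrt (1 + q ^ 2)) atTop atTop := by
    refine Real.tendsto_sqrt_atTop.comp ?_
    exact tendsto_atTop_add_const_left _ _ (tendsto_pow_atTop (by norm_num))
  have h1 : Tendsto (fun q : ℝ => (Real.sqrt (1 + q ^ 2))⁻¹) atTop (𝓝 0) :=
    tendsto_inv_atTop_zero.comp h0
  have h2 : Tendsto (fun q : ℝ => q * (Real.sqrt (1 + q ^ 2))⁻¹) atTop (𝓝 1) := by
    have h3 : Tendsto (fun q : ℝ => Real.sqrt (1 - ((Real.sqrt (1 + q ^ 2))⁻¹) ^ 2)) atTop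
        (𝓝 (Real.sqrt (1 - 0 ^ 2))) :=
      (Real.continuous_sqrt.tendsto _).comp (tendsto_const_nhds.sub (h1.pow 2))
    rw [zero_pow two_ne_zero, sub_zero, Real.sqrt_one] at h3
    refine h3.congr' ?_
    filter_upwards [eventually_ge_atTop 0] with q hq
    have hS := ls_S q
    have h4 : (0 : ℝ) ≤ q * (Real.sqrt (1 + q ^ 2))⁻¹ := by positivity
    rw [← Real.sqrt_sq h4]
    congr 1
    have h5 : Real.sqrt (1 + q ^ 2) ^ 2 = 1 + q ^ 2 := Real.sq_sqrt (by positivity)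
    rw [mul_pow, inv_pow, h5]
    have : (1 + q ^ 2 : ℝ) ≠ 0 := by positivity
    field_simp
    ring
  have h3 := (hL.lim_top s).mul h2
  have h4 := (hL.lim_top s).mul h1
  rw [mul_one] at h3
  rw [mul_zero] at h4
  have h5 := h3.prodMk_nhds h4
  refine h5.congr (fun q => ?_)
  have hS := (ls_S q).ne'
  have hp := (hL.dp_pos s q).ne'
  unfold Vx
  ext
  · simp only
    field_simp
  · simp only
    field_simp

end EQK1
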