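import Pool.Agent.Lib.MP_226de1_co.K.GeoW3
import Pool.Agent.Lib.MP_226de1_co.E1.AreaOne
import Pool.Agent.Lib.MP_226de1_co.E1.K.LineSys

/-! From a planar body with two `k`-equipower points `∓a` to a `LineSys` (compare `EQ2.GeoSys`,
`EQ2.GeoSys2`: the proofs of `far`, `nxt`, `prv` are the same). -/

set_option autoImplicit false

namespace EQK1

open Complex Set Filter Topology EQ2 MeasureTheory
open EQK (gK_equi_k const_eq)

/-- two `k`-equipower points `-a`, `a` of `K`, with constants `c₁`, `c₂` -/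
structure TwoEqui (k : ℝ) (K : Set ℂ) (a c₁ c₂ : ℝ) : Prop where
  hk : 1 ≤ k
  ha : 0 < a
  hc : Convex ℝ K
  hK : IsCompact K
  hi₁ : ((-a : ℝ) : ℂ) ∈ interior K
  hi₂ : ((a : ℝ) : ℂ) ∈ interior K
  he₁ : ∀ x ∈ frontier K, ∀ y ∈ frontier K, x ≠ y → ((-a : ℝ) : ℂ) ∈ segment ℝ x y →
    dist ((-a : ℝ) : ℂ) x ^ k + dist ((-a : ℝ) : ℂ) y ^ k = c₁
  he₂ : ∀ x ∈ frontier K, ∀ y ∈ frontier K, x ≠ y → ((a : ℝ) : ℂ) ∈ segment ℝ x y →
    dist ((a : ℝ) : ℂ) x ^ k + dist ((a : ℝ) : ℂ) y ^ k = c₂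

variable {k : ℝ} {K : Set ℂ} {a c₁ c₂ : ℝ}

noncomputable def dnK (K : Set ℂ) (a : ℝ) (s : Bool) (q : ℝ) : ℝ :=
  if s then 2 * a * gK K ((-a : ℝ) : ℂ) ⟨q, 1⟩ else 2 * a * gK K ((a : ℝ) : ℂ) (-⟨q, 1⟩)

noncomputable def dpK (K : Set ℂ) (a : ℝ) (s : Bool) (q : ℝ) : ℝ :=
  if s then 2 * a * gK K ((-a : ℝ) : ℂ) (-⟨q, 1⟩) else 2 * a * gK K ((a : ℝ) : ℂ) ⟨q, 1⟩

/-- distance of the left centre to the left end of the axis chord -/
noncomputable def rL (K : Set ℂ) (a : ℝ) : ℝ := 1 / gK K ((-a : ℝ) : ℂ) (-1)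
noncomputable def rR (K : Set ℂ) (a : ℝ) : ℝ := 1 / gK K ((a : ℝ) : ℂ) 1

private theorem geoSys_key {c c' w w' : ℂ} (hc : Convex ℝ K) (hK : IsCompact K)
    (hi : c ∈ interior K) (hi' : c' ∈ interior K) (hw : w ≠ 0)
    (he : c + ((1 / gK K c w : ℝ) : ℂ) * w = c' + ((1 / gK K c w : ℝ) : ℂ) * w') :
    gK K c' w' = gK K c w := by
  have h1 := gK_mem_frontier hc hK hi hw
  have hp := gK_pos hK hi hw
  rw [he] at h1
  have h2 := gK_eq_of_mem hc hK hi' (h := 1 / gK K c w) (by positivity) h1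
  rw [h2, one_div_one_div]

private theorem geoSys_ne (q : ℝ) : (⟨q, 1⟩ : ℂ) ≠ 0 := by
  intro h
  have := congrArg Complex.im h
  simp at this

private theorem geoSys_ne' (q : ℝ) : (-⟨q, 1⟩ : ℂ) ≠ 0 := neg_ne_zero.mpr (geoSys_ne q)

private theorem geoSys_strict {x y d k : ℝ} (hk : 1 < k) (hx : 0 < x) (hxy : x < y)
    (hd : 0 < d) : (d + x) ^ k - x ^ k < (d + y) ^ k - y ^ k := by
  have hf := strictConvexOn_rpow hk
  have hD : 0 < y + d - x := by linarith
  have hxm : x ∈ Ici (0 : ℝ) := hx.le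
  have hym : y + d ∈ Ici (0 : ℝ) := by
    rw [mem_Ici]; linarith
  have hne : x ≠ y + d := by linarith
  have ht : 0 < (y - x) / (y + d - x) := div_pos (by linarith) hD
  have ht' : 0 < d / (y + d - x) := div_pos hd hD
  have hsum : (y - x) / (y + d - x) + d / (y + d - x) = 1 := by
    field_simp
    ring
  have h1 := hf.2 hxm hym hne ht ht' hsum
  have h2 := hf.2 hxm hym hne ht' ht (by rw [add_comm]; exact hsum)
  simp only [smul_eq_mul] at h1 h2
  have e1 : (y - x) / (y + d - x) * x + d / (y + d - x) * (y + d) = d + x := by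
    field_simp
    ring
  have e2 : d / (y + d - x) * x + (y - x) / (y + d - x) * (y + d) = y := by
    field_simp
    ring
  rw [e1] at h1
  rw [e2] at h2
  have e3 : (y - x) / (y + d - x) = 1 - d / (y + d - x) := by linarith
  rw [e3] at h1 h2
  have e4 : y + d = d + y := add_comm _ _
  rw [e4] at h1 h2
  nlinarith [h1, h2]

/-- ends of the axis chord seen from the other centre (as `EQ2.TwoEqui.far`) -/
theorem TwoEqui.far (h : TwoEqui k K a c₁ c₂) :
    1 / gK K ((-a : ℝ) : ℂ) 1 = 2 * a + rR K a ∧ 1 / gK K ((a : ℝ) : ℂ) (-1) = 2 * a + rL K a := by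
  have ha := h.ha
  have n1 : (1 : ℂ) ≠ 0 := one_ne_zero
  have n2 : (-1 : ℂ) ≠ 0 := neg_ne_zero.mpr one_ne_zero
  constructor
  · have h1 := gK_mem_frontier h.hc h.hK h.hi₂ n1
    have hp : 0 < rR K a := by
      have := gK_pos h.hK h.hi₂ n1
      unfold rR
      positivity
    have e : (a : ℂ) + ((1 / gK K (a : ℂ) 1 : ℝ) : ℂ) * 1 =
        ((-a : ℝ) : ℂ) + ((2 * a + rR K a : ℝ) : ℂ) * 1 := by
      unfold rR
      push_cast
      ring
    rw [e] at h1
    rw [gK_eq_of_mem h.hc h.hK h.hi₁ (by positivity) h1, one_div_one_div]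
  · have h1 := gK_mem_frontier h.hc h.hK h.hi₁ n2
    have hp : 0 < rL K a := by
      have := gK_pos h.hK h.hi₁ n2
      unfold rL
      positivity
    have e : ((-a : ℝ) : ℂ) + ((1 / gK K ((-a : ℝ) : ℂ) (-1) : ℝ) : ℂ) * (-1) =
        (a : ℂ) + ((2 * a + rL K a : ℝ) : ℂ) * (-1) := by
      unfold rL
      push_cast
      ring
    rw [e] at h1
    rw [gK_eq_of_mem h.hc h.hK h.hi₂ (by positivity) h1, one_div_one_div]

/-- the other end of the chord, `k = 1` -/
private theorem geoSys_sum {c : ℂ} (hc : Convex ℝ K) (hK : IsCompact K) (hi : c ∈ interior K)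
    {c₀ : ℝ} (he : ∀ x ∈ frontier K, ∀ y ∈ frontier K, x ≠ y → c ∈ segment ℝ x y →
      dist c x ^ (1 : ℝ) + dist c y ^ (1 : ℝ) = c₀) {w : ℂ} (hw : w ≠ 0) (hn : ‖w‖ = 1) :
    1 / gK K c (-w) = c₀ - 1 / gK K c w := by
  have h1 := gK_equi_k hc hK hi he hw
  rw [hn, Real.rpow_one, Real.rpow_one] at h1
  linarith

/-- the radial function of a centre -/
private noncomputable def geoRho (K : Set ℂ) (x : ℝ) (θ : ℝ) : ℝ :=
  1 / gK K (x : ℂ) (Complex.exp (θ * Complex.I))

private theorem geoRho_cont (hc : Convex ℝ K) (hK : IsCompact K) {x : ℝ}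
    (hi : (x : ℂ) ∈ interior K) : Continuous (geoRho K x) := by
  unfold geoRho
  refine continuous_const.div ((gK_continuous hc hi).comp (by fun_prop)) fun θ => ?_
  exact (gK_pos hK hi (Complex.exp_ne_zero _)).ne'

private theorem geoRho_pos (hK : IsCompact K) {x : ℝ} (hi : (x : ℂ) ∈ interior K) (θ : ℝ) :
    0 < geoRho K x θ := by
  have := gK_pos hK hi (Complex.exp_ne_zero ((θ : ℂ) * Complex.I))
  unfold geoRho
  positivity

private theorem geoRho_add_pi (hc : Convex ℝ K) (hK : IsCompact K) {x : ℝ}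
    (hi : (x : ℂ) ∈ interior K) {c₀ : ℝ}
    (he : ∀ z ∈ frontier K, ∀ y ∈ frontier K, z ≠ y → (x : ℂ) ∈ segment ℝ z y →
      dist (x : ℂ) z ^ (1 : ℝ) + dist (x : ℂ) y ^ (1 : ℝ) = c₀) (θ : ℝ) :
    geoRho K x (θ + Real.pi) = c₀ - geoRho K x θ := by
  unfold geoRho
  have h2 : Complex.exp (((θ + Real.pi : ℝ) : ℂ) * Complex.I) =
      -Complex.exp (θ * Complex.I) := by
    push_cast
    rw [add_mul, Complex.exp_add, Complex.exp_pi_mul_I]
    ring
  rw [h2]
  exact geoSys_sum hc hK hi he (Complex.exp_ne_zero _) (Complex.norm_exp_ofReal_mul_I θ)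

/-- the area identity for the exponent `s`, in terms of the radial function of a centre with
constant chord length `c₀` -/
private theorem geoSys_area {x c₀ : ℝ} (hc : Convex ℝ K) (hK : IsCompact K)
    (hi : (x : ℂ) ∈ interior K)
    (he : ∀ z ∈ frontier K, ∀ y ∈ frontier K, z ≠ y → (x : ℂ) ∈ segment ℝ z y →
      dist (x : ℂ) z ^ (1 : ℝ) + dist (x : ℂ) y ^ (1 : ℝ) = c₀) {s : ℝ} (hs : 1 < s) :
    ∫ θ in Ioo (-Real.pi) Real.pi, |Real.sin θ| ^ (s - 2) *
      (geoRho K x θ ^ s + (c₀ - geoRho K x θ) ^ s) =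
      2 * s * (∫⁻ z in K, ENNReal.ofReal (|z.im| ^ (s - 2))).toReal := by
  have hpi := Real.pi_pos
  have hs0 : 0 < s := by linarith
  have hρ := geoRho_cont hc hK hi
  have p := geoRho_pos hK hi
  have hadd := geoRho_add_pi hc hK hi he
  have q : ∀ θ, 0 < c₀ - geoRho K x θ := fun θ => by rw [← hadd]; exact p _
  have hm : Measurable (fun θ : ℝ => |Real.sin θ| ^ (s - 2)) :=
    (continuous_abs.measurable.comp Real.measurable_sin).pow_const _
  have hint : ∀ ρ : ℝ → ℝ, Continuous ρ → (∀ θ, 0 < ρ θ) → (∀ θ, ρ θ ≤ c₀) →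
      IntegrableOn (fun θ : ℝ => |Real.sin θ| ^ (s - 2) * ρ θ ^ s) (Ioo (-Real.pi) Real.pi) := by
    intro ρ hρ' p' q'
    have hi' := (EQN.sin_integrable hs).mul_const (c₀ ^ s)
    refine Integrable.mono' hi' (hm.mul (hρ'.measurable.pow_const _)).aestronglyMeasurable
      (Eventually.of_forall fun θ => ?_)
    have p0 := p' θ
    rw [Real.norm_of_nonneg (by positivity)]
    exact mul_le_mul_of_nonneg_left (Real.rpow_le_rpow p0.le (q' θ) hs0.le) (by positivity)
  have i1 := hint _ hρ p (fun θ => by have := q θ; linarith)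
  have i2 := hint (fun θ => c₀ - geoRho K x θ) (continuous_const.sub hρ) q
    (fun θ => by have := p θ; linarith)
  -- the shifted integral
  have hper : Function.Periodic (fun θ : ℝ => |Real.sin θ| ^ (s - 2) * geoRho K x θ ^ s)
      (2 * Real.pi) := by
    intro θ
    have e1 : geoRho K x (θ + 2 * Real.pi) = geoRho K x θ := by
      have e2 : θ + 2 * Real.pi = (θ + Real.pi) + Real.pi := by ring
      rw [e2, hadd, hadd]
      ring
    simp only
    rw [e1, Real.sin_add_two_pi]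
  have hshift : ∫ θ in Ioo (-Real.pi) Real.pi, |Real.sin θ| ^ (s - 2) *
      (c₀ - geoRho K x θ) ^ s =
      ∫ θ in Ioo (-Real.pi) Real.pi, |Real.sin θ| ^ (s - 2) * geoRho K x θ ^ s := by
    rw [← integral_Ioc_eq_integral_Ioo, ← integral_Ioc_eq_integral_Ioo,
      ← intervalIntegral.integral_of_le (by linarith), ← intervalIntegral.integral_of_le (by linarith)]
    have e1 : ∀ θ : ℝ, |Real.sin θ| ^ (s - 2) * (c₀ - geoRho K x θ) ^ s =
        (fun θ : ℝ => |Real.sin θ| ^ (s - 2) * geoRho K x θ ^ s) (θ + Real.pi) := by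
      intro θ
      simp only
      rw [hadd, Real.sin_add_pi, abs_neg]
    simp_rw [e1]
    rw [intervalIntegral.integral_comp_add_right (fun θ : ℝ => |Real.sin θ| ^ (s - 2) *
      geoRho K x θ ^ s)]
    have h3 := hper.intervalIntegral_add_eq (-Real.pi + Real.pi) (-Real.pi)
    have e2 : -Real.pi + Real.pi + 2 * Real.pi = Real.pi + Real.pi := by ring
    have e3 : -Real.pi + 2 * Real.pi = Real.pi := by ring
    rw [e2, e3] at h3
    exact h3
  have hsum : ∫ θ in Ioo (-Real.pi) Real.pi, |Real.sin θ| ^ (s - 2) *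
      (geoRho K x θ ^ s + (c₀ - geoRho K x θ) ^ s) =
      (∫ θ in Ioo (-Real.pi) Real.pi, |Real.sin θ| ^ (s - 2) * geoRho K x θ ^ s) +
      ∫ θ in Ioo (-Real.pi) Real.pi, |Real.sin θ| ^ (s - 2) * (c₀ - geoRho K x θ) ^ s := by
    rw [← integral_add i1 i2]
    refine integral_congr_ae (Eventually.of_forall fun θ => ?_)
    simp only
    ring
  have hpol := EQK.wlint_polar hs hc hK hi
  have hval : (∫⁻ z in K, ENNReal.ofReal (|z.im| ^ (s - 2))).toReal =
      (∫ θ in Ioo (-Real.pi) Real.pi, |Real.sin θ| ^ (s - 2) * geoRho K x θ ^ s) / s := by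
    rw [hpol, ← integral_div, integral_eq_lintegral_of_nonneg_ae]
    · congr 1
      refine lintegral_congr fun θ => ?_
      congr 1
      unfold geoRho
      ring
    · refine Eventually.of_forall fun θ => ?_
      have := p θ
      show (0 : ℝ) ≤ |Real.sin θ| ^ (s - 2) * geoRho K x θ ^ s / s
      positivity
    · exact ((hm.mul (hρ.measurable.pow_const _)).div_const s).aestronglyMeasurable
  rw [hsum, hshift, hval]
  field_simp
  ring

/-- `f(d+x) - f(x)` is strictly increasing for a strictly convex `f` -/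
private theorem geoSys_strict' {f : ℝ → ℝ} (hf : StrictConvexOn ℝ (Ici 0) f) {x y d : ℝ}
    (hx : 0 < x) (hxy : x < y) (hd : 0 < d) : f (d + x) - f x < f (d + y) - f y := by
  have hD : 0 < y + d - x := by linarith
  have hxm : x ∈ Ici (0 : ℝ) := hx.le
  have hym : y + d ∈ Ici (0 : ℝ) := by
    rw [mem_Ici]; linarith
  have hne : x ≠ y + d := by linarith
  have ht : 0 < (y - x) / (y + d - x) := div_pos (by linarith) hD
  have ht' : 0 < d / (y + d - x) := div_pos hd hD
  have hsum : (y - x) / (y + d - x) + d / (y + d - x) = 1 := by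
    field_simp
    ring
  have h1 := hf.2 hxm hym hne ht ht' hsum
  have h2 := hf.2 hxm hym hne ht' ht (by rw [add_comm]; exact hsum)
  simp only [smul_eq_mul] at h1 h2
  have e1 : (y - x) / (y + d - x) * x + d / (y + d - x) * (y + d) = d + x := by
    field_simp
    ring
  have e2 : d / (y + d - x) * x + (y - x) / (y + d - x) * (y + d) = y := by
    field_simp
    ring
  rw [e1] at h1
  rw [e2] at h2
  have e3 : (y - x) / (y + d - x) = 1 - d / (y + d - x) := by linarith
  rw [e3] at h1 h2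
  have e4 : y + d = d + y := add_comm _ _
  rw [e4] at h1 h2
  nlinarith [h1, h2]

/-- `k = 1`: the distances of the two centres to the nearer ends agree -/
private theorem geoSys_one (h : TwoEqui 1 K a c₁ c₂) : rL K a = rR K a := by
  have ha := h.ha
  obtain ⟨f1, f2⟩ := h.far
  have n1 : (1 : ℂ) ≠ 0 := one_ne_zero
  have n2 : (-1 : ℂ) ≠ 0 := neg_ne_zero.mpr one_ne_zero
  have e1 := gK_equi_k h.hc h.hK h.hi₁ h.he₁ n1
  have e2 := gK_equi_k h.hc h.hK h.hi₂ h.he₂ n1
  have hp : 0 < rL K a := by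
    have := gK_pos h.hK h.hi₁ n2
    unfold rL
    positivity
  have hp' : 0 < rR K a := by
    have := gK_pos h.hK h.hi₂ n1
    unfold rR
    positivity
  rw [norm_one, Real.rpow_one, Real.rpow_one] at e1 e2
  rw [f1] at e1
  rw [f2] at e2
  have q2 : 1 / gK K ((-a : ℝ) : ℂ) (-1) = rL K a := rfl
  have q3 : 1 / gK K ((a : ℝ) : ℂ) 1 = rR K a := rfl
  rw [q2] at e1
  rw [q3] at e2
  have hcc : c₁ = c₂ := by rw [← e1, ← e2]; ring
  have hi₁ := h.hi₁
  have hi₂ := h.hi₂
  have he₁ := h.he₁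
  have he₂ := h.he₂
  rw [← hcc] at he₂
  -- the radial functions
  have z1 : geoRho K (-a) 0 = 2 * a + rR K a := by
    unfold geoRho
    rw [Complex.ofReal_zero, zero_mul, Complex.exp_zero]
    exact f1
  have z2 : geoRho K a 0 = rR K a := by
    unfold geoRho
    rw [Complex.ofReal_zero, zero_mul, Complex.exp_zero]
    rfl
  have a1 := geoRho_add_pi h.hc h.hK hi₁ he₁
  have a2 := geoRho_add_pi h.hc h.hK hi₂ he₂
  have w1 : geoRho K (-a) Real.pi = c₁ - geoRho K (-a) 0 := by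
    have := a1 0
    rwa [zero_add] at this
  have w2 : geoRho K a Real.pi = c₁ - geoRho K a 0 := by
    have := a2 0
    rwa [zero_add] at this
  have v1 : geoRho K (-a) (-Real.pi) = c₁ - geoRho K (-a) 0 := by
    have := a1 (-Real.pi)
    rw [neg_add_cancel] at this
    linarith
  have v2 : geoRho K a (-Real.pi) = c₁ - geoRho K a 0 := by
    have := a2 (-Real.pi)
    rw [neg_add_cancel] at this
    linarith
  have p1 := geoRho_pos h.hK hi₁
  have p2 := geoRho_pos h.hK hi₂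
  have r1 : ∀ θ, geoRho K (-a) θ < c₁ := fun θ => by
    have := p1 (θ + Real.pi)
    rw [a1] at this
    linarith
  have r2 : ∀ θ, geoRho K a θ < c₁ := fun θ => by
    have := p2 (θ + Real.pi)
    rw [a2] at this
    linarith
  have hI : ∀ s : ℝ, 1 < s → s < 2 →
      ∫ θ in Ioo (-Real.pi) Real.pi, |Real.sin θ| ^ (s - 2) *
        (geoRho K (-a) θ ^ s + (c₁ - geoRho K (-a) θ) ^ s) =
      ∫ θ in Ioo (-Real.pi) Real.pi, |Real.sin θ| ^ (s - 2) *
        (geoRho K a θ ^ s + (c₁ - geoRho K a θ) ^ s) := fun s hs _ => by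
    rw [geoSys_area h.hc h.hK hi₁ he₁ hs, geoSys_area h.hc h.hK hi₂ he₂ hs]
  have k1 := EQN.area_le (geoRho_cont h.hc h.hK hi₁) (geoRho_cont h.hc h.hK hi₂)
    p1 r1 p2 r2 w1 w2 v1 v2 hI
  have k2 := EQN.area_le (geoRho_cont h.hc h.hK hi₂) (geoRho_cont h.hc h.hK hi₁)
    p2 r2 p1 r1 w2 w1 v2 v1 (fun s hs hs' => (hI s hs hs').symm)
  rw [z1, z2] at k1 k2
  have c1 : c₁ - (2 * a + rR K a) = rL K a := by linarith
  have c2 : c₁ - rR K a = 2 * a + rL K a := by linarith
  rw [c1, c2] at k1 k2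
  have hd : 0 < 2 * a := by linarith
  have hf : StrictConvexOn ℝ (Ici (0 : ℝ)) EQN.fl := Real.strictConvexOn_mul_log
  rcases lt_trichotomy (rL K a) (rR K a) with hlt | heq | hgt
  · have := geoSys_strict' hf hp hlt hd
    linarith
  · exact heq
  · have := geoSys_strict' hf hp' hgt hd
    linarith

/-- `r₁^k + (2a+r₂)^k = c₁ = c₂ = r₂^k + (2a+r₁)^k` (`const_eq`), and `(2a+r)^k - r^k` is strictly
increasing for `k > 1`, so `r₁ = r₂`; for `k = 1` use the areas `∫_K |Im z|^(s-2)`, `s → 1+` -/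
theorem TwoEqui.r_eq (h : TwoEqui k K a c₁ c₂) : 0 < rL K a ∧ rL K a = rR K a ∧
    c₁ = rL K a ^ k + (2 * a + rL K a) ^ k ∧ c₁ = c₂ := by
  have ha := h.ha
  obtain ⟨f1, f2⟩ := h.far
  have n1 : (1 : ℂ) ≠ 0 := one_ne_zero
  have n2 : (-1 : ℂ) ≠ 0 := neg_ne_zero.mpr one_ne_zero
  have e1 := gK_equi_k h.hc h.hK h.hi₁ h.he₁ n1
  have e2 := gK_equi_k h.hc h.hK h.hi₂ h.he₂ n1
  have hp : 0 < rL K a := by
    have := gK_pos h.hK h.hi₁ n2
    unfold rL
    positivity
  have hp' : 0 < rR K a := by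
    have := gK_pos h.hK h.hi₂ n1
    unfold rR
    positivity
  rw [norm_one] at e1 e2
  rw [f1] at e1
  rw [f2] at e2
  have q2 : 1 / gK K ((-a : ℝ) : ℂ) (-1) = rL K a := rfl
  have q3 : 1 / gK K ((a : ℝ) : ℂ) 1 = rR K a := rfl
  rw [q2] at e1
  rw [q3] at e2
  have hd : 0 < 2 * a := by linarith
  rcases h.hk.lt_or_eq with hk | hk
  · have hcc : c₁ = c₂ := const_eq hk h.hc h.hK h.hi₁ h.hi₂ h.he₁ h.he₂
    have h4 : rL K a = rR K a := by
      rcases lt_trichotomy (rL K a) (rR K a) with hlt | heq | hgt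
      · have := geoSys_strict hk hp hlt hd
        linarith
      · exact heq
      · have := geoSys_strict hk hp' hgt hd
        linarith
    refine ⟨hp, h4, ?_, hcc⟩
    rw [← e1, ← h4]
    ring
  · subst hk
    have h4 : rL K a = rR K a := geoSys_one h
    have hcc : c₁ = c₂ := by
      rw [← e1, ← e2, h4]
      ring
    refine ⟨hp, h4, ?_, hcc⟩
    rw [← e1, ← h4]
    ring

theorem TwoEqui.nxt (h : TwoEqui k K a c₁ c₂) (s : Bool) (q : ℝ) :
    dpK K a (!s) (q - dnK K a s q) = dnK K a s q := by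
  have ha := h.ha
  cases s
  · have hp := gK_pos h.hK h.hi₂ (geoSys_ne' q)
    have hpc : ((gK K (a : ℂ) (-⟨q, 1⟩) : ℝ) : ℂ) ≠ 0 := by exact_mod_cast hp.ne'
    simp only [dpK, dnK, Bool.not_false, if_true, Bool.false_eq_true, if_false]
    congr 1
    apply geoSys_key h.hc h.hK h.hi₂ h.hi₁ (geoSys_ne' q)
    apply Complex.ext
    · simp
      field_simp
      ring
    · simp
  · have hp := gK_pos h.hK h.hi₁ (geoSys_ne q)
    have hp' := hp
    rw [Complex.ofReal_neg] at hp'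
    simp only [dpK, dnK, Bool.not_true, if_true, Bool.false_eq_true, if_false]
    congr 1
    apply geoSys_key h.hc h.hK h.hi₁ h.hi₂ (geoSys_ne q)
    apply Complex.ext
    · simp
      field_simp
      ring
    · simp

theorem TwoEqui.prv (h : TwoEqui k K a c₁ c₂) (s : Bool) (q : ℝ) :
    dnK K a (!s) (q + dpK K a s q) = dpK K a s q := by
  have ha := h.ha
  cases s
  · have hp := gK_pos h.hK h.hi₂ (geoSys_ne q)
    simp only [dpK, dnK, Bool.not_false, if_true, Bool.false_eq_true, if_false]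
    congr 1
    apply geoSys_key h.hc h.hK h.hi₂ h.hi₁ (geoSys_ne q)
    apply Complex.ext
    · simp
      field_simp
      ring
    · simp
  · have hp := gK_pos h.hK h.hi₁ (geoSys_ne' q)
    have hp' := hp
    rw [Complex.ofReal_neg] at hp'
    simp only [dpK, dnK, Bool.not_true, if_true, Bool.false_eq_true, if_false]
    congr 1
    apply geoSys_key h.hc h.hK h.hi₁ h.hi₂ (geoSys_ne' q)
    apply Complex.ext
    · simp
      field_simp
      ring
    · simp

end EQK1
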